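import Pool.Agent.Y602.TriK

/-!
# The graphs of the reduction to CIS graphs have no long induced cycles and paths

Neither the graph nor its complement contains an induced cycle of length at least 5 or an induced
path with 8 vertices.  Proof by local windows: there is no sequence of 8 vertices in which vertices
at distance 1 are adjacent and vertices at distance 2 and 3 are different and not adjacent.
-/

set_option autoImplicit false

namespace Pool.Agent.K7.H94.CIS

open Pool.Agent.H622R2 Pool.Agent.H609R2 Pool.Agent.NPC Pool.Agent.H495R3 Pool.Agent.Y602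

/-- a sequence of `n` vertices in which vertices at distance `1` are related and vertices at
distance `2` and `3` are different and not related -/
structure Win {V : Type} (r : V → V → Prop) (n : ℕ) (g : ℕ → V) : Prop where
  one : ∀ i, i + 1 < n → r (g i) (g (i + 1))
  two : ∀ i, i + 2 < n → g i ≠ g (i + 2) ∧ ¬ r (g i) (g (i + 2))
  three : ∀ i, i + 3 < n → g i ≠ g (i + 3) ∧ ¬ r (g i) (g (i + 3))

theorem Win.shift {V : Type} {r : V → V → Prop} {n : ℕ} {g : ℕ → V} (h : Win r n g) (m k : ℕ)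
    (hmk : m + k ≤ n) : Win r m (fun i => g (i + k)) where
  one i hi := by
    have := h.one (i + k) (by omega)
    rwa [show i + k + 1 = i + 1 + k by omega] at this
  two i hi := by
    have := h.two (i + k) (by omega)
    rwa [show i + k + 2 = i + 2 + k by omega] at this
  three i hi := by
    have := h.three (i + k) (by omega)
    rwa [show i + k + 3 = i + 3 + k by omega] at this

theorem Win.rev {V : Type} {r : V → V → Prop} (hr : ∀ x y, r x y → r y x) {n : ℕ} {g : ℕ → V}
    (h : Win r n g) : Win r n (fun i => g (n - 1 - i)) where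
  one i hi := by
    have := h.one (n - 1 - (i + 1)) (by omega)
    rw [show n - 1 - (i + 1) + 1 = n - 1 - i by omega] at this
    exact hr _ _ this
  two i hi := by
    have := h.two (n - 1 - (i + 2)) (by omega)
    rw [show n - 1 - (i + 2) + 2 = n - 1 - i by omega] at this
    exact ⟨this.1.symm, fun h' => this.2 (hr _ _ h')⟩
  three i hi := by
    have := h.three (n - 1 - (i + 3)) (by omega)
    rw [show n - 1 - (i + 3) + 3 = n - 1 - i by omega] at this
    exact ⟨this.1.symm, fun h' => this.2 (hr _ _ h')⟩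

/-! ### Attributes of labels -/

/-- the second kind of labels -/
def isB : Lb → Bool
  | Sum.inl _ => false
  | Sum.inr _ => true

/-- the variable -/
def vr : Lb → ℕ
  | Sum.inl x => x.1
  | Sum.inr y => y.1

/-- the value -/
def vl : Lb → Bool
  | Sum.inl x => x.2
  | Sum.inr y => y.2.2

/-- the clause -/
def cl : Lb → ℕ
  | Sum.inl _ => 0
  | Sum.inr y => y.2.1

section

variable {L : ℕ → ℕ → Bool → Bool}

theorem extA {x y : Lb} (hx : isB x = false) (hy : isB y = false) (h1 : vr x = vr y)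
    (h2 : vl x = vl y) : x = y := by
  rcases x with ⟨i, a⟩ | ⟨i, k, a⟩ <;> rcases y with ⟨j, b⟩ | ⟨j, l, b⟩ <;>
    simp_all [isB, vr, vl]

theorem extB {x y : Lb} (hx : isB x = true) (hy : isB y = true) (h1 : vr x = vr y)
    (h2 : vl x = vl y) (h3 : cl x = cl y) : x = y := by
  rcases x with ⟨i, a⟩ | ⟨i, k, a⟩ <;> rcases y with ⟨j, b⟩ | ⟨j, l, b⟩ <;>
    simp_all [isB, vr, vl, cl]

theorem adjAA {x y : Lb} (hx : isB x = false) (hy : isB y = false) :
    AdjP L x y ↔ vr x = vr y ∧ vl x ≠ vl y := by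
  rcases x with ⟨i, a⟩ | ⟨i, k, a⟩ <;> rcases y with ⟨j, b⟩ | ⟨j, l, b⟩ <;>
    simp_all [isB, vr, vl, adjP_ll]

theorem adjAB {x y : Lb} (hx : isB x = false) (hy : isB y = true) :
    AdjP L x y ↔ (vr x = vr y ∧ vl x ≠ vl y) ∨ L (cl y) (vr x) (vl x) = true := by
  rcases x with ⟨i, a⟩ | ⟨i, k, a⟩ <;> rcases y with ⟨j, b⟩ | ⟨j, l, b⟩ <;>
    simp_all [isB, vr, vl, cl, adjP_lr]

theorem adjBA {x y : Lb} (hx : isB x = true) (hy : isB y = false) :
    AdjP L x y ↔ (vr y = vr x ∧ vl y ≠ vl x) ∨ L (cl x) (vr y) (vl y) = true := by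
  rw [← adjAB hy hx]
  exact ⟨AdjP.symm, AdjP.symm⟩

theorem adjBB {x y : Lb} (hx : isB x = true) (hy : isB y = true) :
    AdjP L x y ↔ cl x ≠ cl y ∨ (vr x = vr y ∧ vl x ≠ vl y) := by
  rcases x with ⟨i, a⟩ | ⟨i, k, a⟩ <;> rcases y with ⟨j, b⟩ | ⟨j, l, b⟩ <;>
    simp_all [isB, vr, vl, cl, adjP_rr]

theorem bool_eq_of_ne_ne {a b c : Bool} (h1 : a ≠ b) (h2 : b ≠ c) : a = c := by
  cases a <;> cases b <;> cases c <;> simp_all

/-! ### Windows in the graph -/

theorem g_AAA {g : ℕ → Lb} (h : Win (AdjP L) 3 g) (t0 : isB (g 0) = false)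
    (t1 : isB (g 1) = false) (t2 : isB (g 2) = false) : False := by
  have a := (adjAA t0 t1).1 (h.one 0 (by omega))
  have b := (adjAA t1 t2).1 (h.one 1 (by omega))
  exact (h.two 0 (by omega)).1 (extA t0 t2 (a.1.trans b.1) (bool_eq_of_ne_ne a.2 b.2))

theorem g_BBB {g : ℕ → Lb} (h : Win (AdjP L) 3 g) (t0 : isB (g 0) = true)
    (t1 : isB (g 1) = true) (t2 : isB (g 2) = true) (c1 : cl (g 0) = cl (g 1))
    (c2 : cl (g 1) = cl (g 2)) : False := by
  have a := (adjBB t0 t1).1 (h.one 0 (by omega))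
  have b := (adjBB t1 t2).1 (h.one 1 (by omega))
  have a' := a.resolve_left (fun h => h c1)
  have b' := b.resolve_left (fun h => h c2)
  exact (h.two 0 (by omega)).1
    (extB t0 t2 (a'.1.trans b'.1) (bool_eq_of_ne_ne a'.2 b'.2) (c1.trans c2))

theorem g_BAAB {g : ℕ → Lb} (h : Win (AdjP L) 4 g) (t0 : isB (g 0) = true)
    (t1 : isB (g 1) = false) (t2 : isB (g 2) = false) (t3 : isB (g 3) = true) : False := by
  have a := (adjBA t0 t1).1 (h.one 0 (by omega))
  have b := (adjAA t1 t2).1 (h.one 1 (by omega))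
  have c := (adjAB t2 t3).1 (h.one 2 (by omega))
  have d := fun hh => (h.two 0 (by omega)).2 ((adjBA t0 t2).2 hh)
  have e := fun hh => (h.two 1 (by omega)).2 ((adjAB t1 t3).2 hh)
  have f := fun hh => (h.three 0 (by omega)).2 ((adjBB t0 t3).2 hh)
  have f1 : cl (g 0) = cl (g 3) := by
    by_contra hc
    exact f (Or.inl hc)
  have a1 : vr (g 1) = vr (g 0) ∧ vl (g 1) ≠ vl (g 0) := by
    rcases a with a | a
    · exact a
    · exact absurd (Or.inr (f1 ▸ a)) e
  have c1 : vr (g 2) = vr (g 3) ∧ vl (g 2) ≠ vl (g 3) := by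
    rcases c with c | c
    · exact c
    · exact absurd (Or.inr (f1 ▸ c)) d
  refine f (Or.inr ⟨?_, ?_⟩)
  · rw [← a1.1, b.1, c1.1]
  · have h1 := a1.2
    have h2 := b.2
    have h3 := c1.2
    revert h1 h2 h3
    cases vl (g 0) <;> cases vl (g 1) <;> cases vl (g 2) <;> cases vl (g 3) <;> simp

theorem g_ABBA {g : ℕ → Lb} (h : Win (AdjP L) 4 g) (t0 : isB (g 0) = false)
    (t1 : isB (g 1) = true) (t2 : isB (g 2) = true) (t3 : isB (g 3) = false)
    (c1 : cl (g 1) = cl (g 2)) : False := by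
  have a := (adjAB t0 t1).1 (h.one 0 (by omega))
  have b := (adjBB t1 t2).1 (h.one 1 (by omega))
  have c := (adjBA t2 t3).1 (h.one 2 (by omega))
  have d := fun hh => (h.two 0 (by omega)).2 ((adjAB t0 t2).2 hh)
  have e := fun hh => (h.two 1 (by omega)).2 ((adjBA t1 t3).2 hh)
  have f := fun hh => (h.three 0 (by omega)).2 ((adjAA t0 t3).2 hh)
  have a1 : vr (g 0) = vr (g 1) ∧ vl (g 0) ≠ vl (g 1) := by
    rcases a with a | a
    · exact a
    · exact absurd (Or.inr (c1 ▸ a)) d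
  have b1 := b.resolve_left (fun h => h c1)
  have c2 : vr (g 3) = vr (g 2) ∧ vl (g 3) ≠ vl (g 2) := by
    rcases c with c | c
    · exact c
    · exact absurd (Or.inr (c1 ▸ c)) e
  refine f ⟨?_, ?_⟩
  · rw [a1.1, b1.1, ← c2.1]
  · have h1 := a1.2
    have h2 := b1.2
    have h3 := c2.2
    revert h1 h2 h3
    cases vl (g 0) <;> cases vl (g 1) <;> cases vl (g 2) <;> cases vl (g 3) <;> simp

theorem g_ABABAB {g : ℕ → Lb} (h : Win (AdjP L) 6 g) (t0 : isB (g 0) = false)
    (t1 : isB (g 1) = true) (t2 : isB (g 2) = false) (t3 : isB (g 3) = true)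
    (t5 : isB (g 5) = true) : False := by
  have e1 : cl (g 1) = cl (g 3) := by
    by_contra hc
    exact (h.two 1 (by omega)).2 ((adjBB t1 t3).2 (Or.inl hc))
  have e2 : cl (g 3) = cl (g 5) := by
    by_contra hc
    exact (h.two 3 (by omega)).2 ((adjBB t3 t5).2 (Or.inl hc))
  have a := (adjAB t0 t1).1 (h.one 0 (by omega))
  have b := (adjBA t1 t2).1 (h.one 1 (by omega))
  have a1 : vr (g 0) = vr (g 1) ∧ vl (g 0) ≠ vl (g 1) := by
    rcases a with a | a
    · exact a
    · refine absurd ((adjAB t0 t3).2 (Or.inr ?_)) (h.three 0 (by omega)).2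
      rw [← e1]
      exact a
  have b1 : vr (g 2) = vr (g 1) ∧ vl (g 2) ≠ vl (g 1) := by
    rcases b with b | b
    · exact b
    · refine absurd ((adjAB t2 t5).2 (Or.inr ?_)) (h.three 2 (by omega)).2
      rw [← e2, ← e1]
      exact b
  exact (h.two 0 (by omega)).1 (extA t0 t2 (a1.1.trans b1.1.symm)
    (bool_eq_of_ne_ne a1.2 b1.2.symm))

theorem g_D1 {g : ℕ → Lb} (h : Win (AdjP L) 5 g) (t0 : isB (g 0) = true)
    (t1 : isB (g 1) = true) (c : cl (g 0) ≠ cl (g 1)) :
    isB (g 2) = true ∧ cl (g 2) = cl (g 0) ∧ isB (g 3) = false := by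
  have t3 : isB (g 3) = false := by
    by_contra hc
    rw [Bool.not_eq_false] at hc
    have e1 : cl (g 0) = cl (g 3) := by
      by_contra hc'
      exact (h.three 0 (by omega)).2 ((adjBB t0 hc).2 (Or.inl hc'))
    have e2 : cl (g 1) = cl (g 3) := by
      by_contra hc'
      exact (h.two 1 (by omega)).2 ((adjBB t1 hc).2 (Or.inl hc'))
    exact c (e1.trans e2.symm)
  have t2 : isB (g 2) = true := by
    by_contra hc
    rw [Bool.not_eq_true] at hc
    cases t4 : isB (g 4)
    · exact g_AAA (h.shift 3 2 (by omega)) hc t3 t4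
    · exact g_BAAB (h.shift 4 1 (by omega)) t1 hc t3 t4
  refine ⟨t2, ?_, t3⟩
  by_contra hc
  exact (h.two 0 (by omega)).2 ((adjBB t0 t2).2 (Or.inl (Ne.symm hc)))

theorem g_D2 {g : ℕ → Lb} (h : Win (AdjP L) 6 g) (t0 : isB (g 0) = true)
    (t1 : isB (g 1) = true) : cl (g 0) = cl (g 1) := by
  by_contra c
  obtain ⟨t2, c2, t3⟩ := g_D1 (h.shift 5 0 (by omega)) t0 t1 c
  obtain ⟨t3', _, _⟩ := g_D1 (h.shift 5 1 (by omega)) t1 t2 (by
    show cl (g 1) ≠ cl (g 2)
    intro hc
    exact c (c2.symm.trans hc.symm))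
  simp only [add_zero, Nat.reduceAdd] at t3 t3'
  rw [t3] at t3'
  exact absurd t3' (by simp)

theorem g_cl {g : ℕ → Lb} (h : Win (AdjP L) 8 g) (p : ℕ) (hp : p + 1 < 8)
    (t0 : isB (g p) = true) (t1 : isB (g (p + 1)) = true) : cl (g p) = cl (g (p + 1)) := by
  rcases le_or_gt p 2 with h2 | h2
  · have := g_D2 (h.shift 6 p (by omega)) (by simpa using t0)
      (by simpa [add_comm] using t1)
    simpa [add_comm] using this
  · rcases le_or_gt 4 p with h4 | h4
    · have hr := h.rev (fun _ _ => AdjP.symm)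
      have h5 : 8 - 1 - (0 + (6 - p)) = p + 1 := by omega
      have h6 : 8 - 1 - (1 + (6 - p)) = p := by omega
      have := g_D2 (hr.shift 6 (6 - p) (by omega)) (by simp only [h5]; exact t1)
        (by simp only [h6]; exact t0)
      simp only [h5, h6] at this
      exact this.symm
    · have hp3 : p = 3 := by omega
      subst hp3
      by_contra c
      obtain ⟨t5, c5, _⟩ := g_D1 (h.shift 5 3 (by omega)) t0 t1 c
      have hr := h.rev (fun _ _ => AdjP.symm)
      obtain ⟨t2, c2, _⟩ := g_D1 (hr.shift 5 3 (by omega)) t1 t0 (Ne.symm c)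
      simp only [Nat.reduceAdd, Nat.reduceSub] at t5 c5 t2 c2 c
      have e1 : cl (g 2) = cl (g 5) := by
        by_contra hc'
        exact (h.three 2 (by omega)).2 ((adjBB t2 t5).2 (Or.inl hc'))
      exact c (by rw [← c5, ← e1, c2])

/-- the combinatorics of the kinds of the vertices -/
theorem comb1 (t0 t1 t2 t3 t4 t5 t6 t7 : Bool)
    (a0 : ¬ (t0 = t1 ∧ t1 = t2)) (a1 : ¬ (t1 = t2 ∧ t2 = t3)) (a2 : ¬ (t2 = t3 ∧ t3 = t4))
    (a3 : ¬ (t3 = t4 ∧ t4 = t5)) (a4 : ¬ (t4 = t5 ∧ t5 = t6)) (a5 : ¬ (t5 = t6 ∧ t6 = t7))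
    (b0 : ¬ (t0 ≠ t1 ∧ t1 = t2 ∧ t2 ≠ t3)) (b1 : ¬ (t1 ≠ t2 ∧ t2 = t3 ∧ t3 ≠ t4))
    (b2 : ¬ (t2 ≠ t3 ∧ t3 = t4 ∧ t4 ≠ t5)) (b3 : ¬ (t3 ≠ t4 ∧ t4 = t5 ∧ t5 ≠ t6))
    (b4 : ¬ (t4 ≠ t5 ∧ t5 = t6 ∧ t6 ≠ t7))
    (c1 : ¬ (t1 ≠ t2 ∧ t2 ≠ t3 ∧ t3 ≠ t4 ∧ t4 ≠ t5 ∧ t5 ≠ t6)) : False := by
  cases t0 <;> cases t1 <;> cases t2 <;> simp at a0 <;> cases t3 <;> simp at a1 b0 <;>
    cases t4 <;> simp at a2 b1 <;> cases t5 <;> simp at a3 b2 <;> cases t6 <;>
    simp at a4 b3 c1 <;> cases t7 <;> simp at a5 b4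

theorem g_aaa {g : ℕ → Lb} (h : Win (AdjP L) 8 g) (i : ℕ) (hi : i + 2 < 8) :
    ¬ (isB (g i) = isB (g (i + 1)) ∧ isB (g (i + 1)) = isB (g (i + 2))) := by
  rintro ⟨h1, h2⟩
  have hs := h.shift 3 i (by omega)
  cases t : isB (g i)
  · rw [t] at h1
    rw [← h1] at h2
    refine g_AAA hs ?_ ?_ ?_
    · simpa using t
    · simpa [add_comm] using h1.symm
    · simpa [add_comm] using h2.symm
  · rw [t] at h1
    rw [← h1] at h2
    refine g_BBB hs ?_ ?_ ?_ ?_ ?_
    · simpa using t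
    · simpa [add_comm] using h1.symm
    · simpa [add_comm] using h2.symm
    · simpa [add_comm] using g_cl h i (by omega) t h1.symm
    · simpa [add_comm, add_left_comm] using g_cl h (i + 1) (by omega) h1.symm h2.symm

theorem g_bab {g : ℕ → Lb} (h : Win (AdjP L) 8 g) (i : ℕ) (hi : i + 3 < 8) :
    ¬ (isB (g i) ≠ isB (g (i + 1)) ∧ isB (g (i + 1)) = isB (g (i + 2)) ∧
      isB (g (i + 2)) ≠ isB (g (i + 3))) := by
  rintro ⟨h1, h2, h3⟩
  have hs := h.shift 4 i (by omega)
  cases t : isB (g (i + 1))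
  · rw [t] at h1 h2
    rw [← h2] at h3
    refine g_BAAB hs ?_ ?_ ?_ ?_
    · simpa using h1
    · simpa [add_comm] using t
    · simpa [add_comm] using h2.symm
    · simpa [add_comm] using h3.symm
  · rw [t] at h1 h2
    rw [← h2] at h3
    refine g_ABBA hs ?_ ?_ ?_ ?_ ?_
    · simpa using h1
    · simpa [add_comm] using t
    · simpa [add_comm] using h2.symm
    · simpa [add_comm] using h3.symm
    · simpa [add_comm, add_left_comm] using g_cl h (i + 1) (by omega) t h2.symm

theorem g_alt {g : ℕ → Lb} (h : Win (AdjP L) 8 g) :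
    ¬ (isB (g 1) ≠ isB (g 2) ∧ isB (g 2) ≠ isB (g 3) ∧ isB (g 3) ≠ isB (g 4) ∧
      isB (g 4) ≠ isB (g 5) ∧ isB (g 5) ≠ isB (g 6)) := by
  rintro ⟨h1, h2, h3, h4, h5⟩
  cases t : isB (g 1)
  · have t2 : isB (g 2) = true := by simpa [t] using h1
    have t3 : isB (g 3) = false := by simpa [t2] using h2
    have t4 : isB (g 4) = true := by simpa [t3] using h3
    have t5 : isB (g 5) = false := by simpa [t4] using h4
    have t6 : isB (g 6) = true := by simpa [t5] using h5
    exact g_ABABAB (h.shift 6 1 (by omega)) t t2 t3 t4 t6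
  · have t2 : isB (g 2) = false := by simpa [t] using h1
    have t3 : isB (g 3) = true := by simpa [t2] using h2
    have t4 : isB (g 4) = false := by simpa [t3] using h3
    have t5 : isB (g 5) = true := by simpa [t4] using h4
    have t6 : isB (g 6) = false := by simpa [t5] using h5
    have hr := h.rev (fun _ _ => AdjP.symm)
    exact g_ABABAB (hr.shift 6 1 (by omega)) t6 t5 t4 t3 t

/-- **no windows of length 8 in the graph** -/
theorem no_win (g : ℕ → Lb) : ¬ Win (AdjP L) 8 g := by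
  intro h
  exact comb1 (isB (g 0)) (isB (g 1)) (isB (g 2)) (isB (g 3)) (isB (g 4)) (isB (g 5)) (isB (g 6))
    (isB (g 7)) (g_aaa h 0 (by omega)) (g_aaa h 1 (by omega)) (g_aaa h 2 (by omega))
    (g_aaa h 3 (by omega)) (g_aaa h 4 (by omega)) (g_aaa h 5 (by omega))
    (g_bab h 0 (by omega)) (g_bab h 1 (by omega)) (g_bab h 2 (by omega))
    (g_bab h 3 (by omega)) (g_bab h 4 (by omega)) (g_alt h)

/-! ### Windows in the complement -/

/-- adjacency in the complement -/
def CP (L : ℕ → ℕ → Bool → Bool) (x y : Lb) : Prop := x ≠ y ∧ ¬ AdjP L x y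

theorem CP.symm {x y : Lb} (h : CP L x y) : CP L y x := ⟨h.1.symm, fun h' => h.2 h'.symm⟩

theorem cAA {x y : Lb} (hx : isB x = false) (hy : isB y = false) :
    CP L x y ↔ vr x ≠ vr y := by
  unfold CP
  rw [adjAA hx hy]
  constructor
  · rintro ⟨h1, h2⟩ h3
    exact h2 ⟨h3, fun h4 => h1 (extA hx hy h3 h4)⟩
  · intro h
    exact ⟨fun h' => h (by rw [h']), fun h' => h h'.1⟩

theorem cAB {x y : Lb} (hx : isB x = false) (hy : isB y = true) :
    CP L x y ↔ L (cl y) (vr x) (vl x) = false ∧ (vr x ≠ vr y ∨ vl x = vl y) := by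
  unfold CP
  rw [adjAB hx hy]
  have hne : x ≠ y := by
    rintro rfl
    rw [hx] at hy
    exact absurd hy (by simp)
  cases L (cl y) (vr x) (vl x) <;> simp [hne, imp_iff_not_or]

theorem cBA {x y : Lb} (hx : isB x = true) (hy : isB y = false) :
    CP L x y ↔ L (cl x) (vr y) (vl y) = false ∧ (vr y ≠ vr x ∨ vl y = vl x) := by
  rw [← cAB hy hx]
  exact ⟨CP.symm, CP.symm⟩

theorem cBB {x y : Lb} (hx : isB x = true) (hy : isB y = true) :
    CP L x y ↔ cl x = cl y ∧ vr x ≠ vr y := by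
  unfold CP
  rw [adjBB hx hy]
  constructor
  · rintro ⟨h1, h2⟩
    have h3 : cl x = cl y := by
      by_contra hc
      exact h2 (Or.inl hc)
    exact ⟨h3, fun h4 => h2 (Or.inr ⟨h4, fun h5 => h1 (extB hx hy h4 h5 h3)⟩)⟩
  · rintro ⟨h1, h2⟩
    exact ⟨fun h' => h2 (by rw [h']), fun h' => h'.elim (fun h => h h1) (fun h => h2 h.1)⟩

theorem c_AxAA {g : ℕ → Lb} (h : Win (CP L) 4 g) (t0 : isB (g 0) = false)
    (t2 : isB (g 2) = false) (t3 : isB (g 3) = false) : False := by
  have a := mt (cAA t0 t2).2 (h.two 0 (by omega)).2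
  have b := mt (cAA t0 t3).2 (h.three 0 (by omega)).2
  have c := (cAA t2 t3).1 (h.one 2 (by omega))
  rw [not_not] at a b
  exact c (a.symm.trans b)

theorem c_AxAxA {g : ℕ → Lb} (h : Win (CP L) 5 g) (t0 : isB (g 0) = false)
    (t2 : isB (g 2) = false) (t4 : isB (g 4) = false) : False := by
  have a := mt (cAA t0 t2).2 (h.two 0 (by omega)).2
  have b := mt (cAA t2 t4).2 (h.two 2 (by omega)).2
  rw [not_not] at a b
  have a1 : vl (g 0) ≠ vl (g 2) := fun hh => (h.two 0 (by omega)).1 (extA t0 t2 a hh)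
  have b1 : vl (g 2) ≠ vl (g 4) := fun hh => (h.two 2 (by omega)).1 (extA t2 t4 b hh)
  have c : g 0 = g 4 := extA t0 t4 (a.trans b) (bool_eq_of_ne_ne a1 b1)
  have d := h.one 0 (by omega)
  rw [c] at d
  exact (h.three 1 (by omega)).2 d.symm

theorem c_BBBB {g : ℕ → Lb} (h : Win (CP L) 4 g) (t0 : isB (g 0) = true)
    (t1 : isB (g 1) = true) (t2 : isB (g 2) = true) (t3 : isB (g 3) = true) : False := by
  have a := (cBB t0 t1).1 (h.one 0 (by omega))
  have b := (cBB t1 t2).1 (h.one 1 (by omega))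
  have c := (cBB t2 t3).1 (h.one 2 (by omega))
  have d := mt (cBB t0 t2).2 (h.two 0 (by omega)).2
  have e := mt (cBB t0 t3).2 (h.three 0 (by omega)).2
  simp only [not_and, not_not] at d e
  have d1 := d (a.1.trans b.1)
  have e1 := e ((a.1.trans b.1).trans c.1)
  exact c.2 (d1.symm.trans e1)

theorem c_BBBA {g : ℕ → Lb} (h : Win (CP L) 4 g) (t0 : isB (g 0) = true)
    (t1 : isB (g 1) = true) (t2 : isB (g 2) = true) (t3 : isB (g 3) = false) : False := by
  have a := (cBB t0 t1).1 (h.one 0 (by omega))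
  have b := (cBB t1 t2).1 (h.one 1 (by omega))
  have c := (cBA t2 t3).1 (h.one 2 (by omega))
  have d := mt (cBA t1 t3).2 (h.two 1 (by omega)).2
  have e := mt (cBA t0 t3).2 (h.three 0 (by omega)).2
  simp only [not_and, not_or, not_not] at d e
  have d1 := d (by rw [b.1]; exact c.1)
  have e1 := e (by rw [a.1, b.1]; exact c.1)
  exact a.2 (e1.1.symm.trans d1.1)

theorem c_ABBA {g : ℕ → Lb} (h : Win (CP L) 4 g) (t0 : isB (g 0) = false)
    (t1 : isB (g 1) = true) (t2 : isB (g 2) = true) (t3 : isB (g 3) = false) : False := by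
  have a := (cAB t0 t1).1 (h.one 0 (by omega))
  have b := (cBB t1 t2).1 (h.one 1 (by omega))
  have c := (cBA t2 t3).1 (h.one 2 (by omega))
  have d := mt (cAB t0 t2).2 (h.two 0 (by omega)).2
  have e := mt (cBA t1 t3).2 (h.two 1 (by omega)).2
  have f := mt (cAA t0 t3).2 (h.three 0 (by omega)).2
  simp only [not_and, not_or, not_not] at d e f
  have d1 := d (by rw [← b.1]; exact a.1)
  have e1 := e (by rw [b.1]; exact c.1)
  exact b.2 (e1.1.symm.trans (f.symm.trans d1.1))

/-- the combinatorics of the kinds of the vertices -/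
theorem comb2 (t : ℕ → Bool)
    (h1 : ∀ i, i + 3 < 8 → ¬ (t i = false ∧ t (i + 2) = false ∧ t (i + 3) = false))
    (h2 : ∀ i, i + 3 < 8 → ¬ (t i = false ∧ t (i + 1) = false ∧ t (i + 3) = false))
    (h3 : ∀ i, i + 4 < 8 → ¬ (t i = false ∧ t (i + 2) = false ∧ t (i + 4) = false))
    (h4 : ∀ i, i + 3 < 8 → ¬ (t i = true ∧ t (i + 1) = true ∧ t (i + 2) = true ∧ t (i + 3) = true))
    (h5 : ∀ i, i + 3 < 8 → ¬ (t i = true ∧ t (i + 1) = true ∧ t (i + 2) = true ∧ t (i + 3) = false))
    (h6 : ∀ i, i + 3 < 8 → ¬ (t i = false ∧ t (i + 1) = true ∧ t (i + 2) = true ∧ t (i + 3) = true))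
    (h7 : ∀ i, i + 3 < 8 →
      ¬ (t i = false ∧ t (i + 1) = true ∧ t (i + 2) = true ∧ t (i + 3) = false)) : False := by
  have a0 := h1 0 (by omega)
  have a1 := h1 1 (by omega)
  have a2 := h1 2 (by omega)
  have a3 := h1 3 (by omega)
  have a4 := h1 4 (by omega)
  have b0 := h2 0 (by omega)
  have b1 := h2 1 (by omega)
  have b2 := h2 2 (by omega)
  have b3 := h2 3 (by omega)
  have b4 := h2 4 (by omega)
  have c0 := h3 0 (by omega)
  have c1 := h3 1 (by omega)
  have c2 := h3 2 (by omega)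
  have c3 := h3 3 (by omega)
  have d0 := h4 0 (by omega)
  have d1 := h4 1 (by omega)
  have d2 := h4 2 (by omega)
  have d3 := h4 3 (by omega)
  have d4 := h4 4 (by omega)
  have e0 := h5 0 (by omega)
  have e1 := h5 1 (by omega)
  have e2 := h5 2 (by omega)
  have e3 := h5 3 (by omega)
  have e4 := h5 4 (by omega)
  have f0 := h6 0 (by omega)
  have f1 := h6 1 (by omega)
  have f2 := h6 2 (by omega)
  have f3 := h6 3 (by omega)
  have f4 := h6 4 (by omega)
  have g0 := h7 0 (by omega)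
  have g1 := h7 1 (by omega)
  have g2 := h7 2 (by omega)
  have g3 := h7 3 (by omega)
  have g4 := h7 4 (by omega)
  clear h1 h2 h3 h4 h5 h6 h7
  simp only [Nat.reduceAdd, zero_add] at *
  generalize t 0 = t0 at *
  generalize t 1 = t1 at *
  generalize t 2 = t2 at *
  generalize t 3 = t3 at *
  generalize t 4 = t4 at *
  generalize t 5 = t5 at *
  generalize t 6 = t6 at *
  generalize t 7 = t7 at *
  cases t0 <;> cases t1 <;> cases t2 <;> cases t3 <;> simp at a0 b0 d0 e0 f0 g0 <;>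
    cases t4 <;> simp at a1 b1 c0 d1 e1 f1 g1 <;> cases t5 <;> simp at a2 b2 c1 d2 e2 f2 g2 <;>
    cases t6 <;> simp at a3 b3 c2 d3 e3 f3 g3 <;> cases t7 <;> simp at a4 b4 c3 d4 e4 f4 g4

/-- **no windows of length 8 in the complement** -/
theorem no_cwin (g : ℕ → Lb) : ¬ Win (CP L) 8 g := by
  intro h
  have hr := h.rev (fun _ _ => CP.symm)
  refine comb2 (fun i => isB (g i)) ?_ ?_ ?_ ?_ ?_ ?_ ?_
  · rintro i hi ⟨t0, t2, t3⟩
    exact c_AxAA (h.shift 4 i (by omega)) (by simpa using t0) (by simpa [add_comm] using t2)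
      (by simpa [add_comm] using t3)
  · rintro i hi ⟨t0, t1, t3⟩
    refine c_AxAA (hr.shift 4 (8 - 1 - (i + 3)) (by omega)) ?_ ?_ ?_
    · rw [show 8 - 1 - (0 + (8 - 1 - (i + 3))) = i + 3 by omega]
      exact t3
    · rw [show 8 - 1 - (2 + (8 - 1 - (i + 3))) = i + 1 by omega]
      exact t1
    · rw [show 8 - 1 - (3 + (8 - 1 - (i + 3))) = i by omega]
      exact t0
  · rintro i hi ⟨t0, t2, t4⟩
    exact c_AxAxA (h.shift 5 i (by omega)) (by simpa using t0) (by simpa [add_comm] using t2)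
      (by simpa [add_comm] using t4)
  · rintro i hi ⟨t0, t1, t2, t3⟩
    exact c_BBBB (h.shift 4 i (by omega)) (by simpa using t0) (by simpa [add_comm] using t1)
      (by simpa [add_comm] using t2) (by simpa [add_comm] using t3)
  · rintro i hi ⟨t0, t1, t2, t3⟩
    exact c_BBBA (h.shift 4 i (by omega)) (by simpa using t0) (by simpa [add_comm] using t1)
      (by simpa [add_comm] using t2) (by simpa [add_comm] using t3)
  · rintro i hi ⟨t0, t1, t2, t3⟩
    refine c_BBBA (hr.shift 4 (8 - 1 - (i + 3)) (by omega)) ?_ ?_ ?_ ?_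
    · rw [show 8 - 1 - (0 + (8 - 1 - (i + 3))) = i + 3 by omega]
      exact t3
    · rw [show 8 - 1 - (1 + (8 - 1 - (i + 3))) = i + 2 by omega]
      exact t2
    · rw [show 8 - 1 - (2 + (8 - 1 - (i + 3))) = i + 1 by omega]
      exact t1
    · rw [show 8 - 1 - (3 + (8 - 1 - (i + 3))) = i by omega]
      exact t0
  · rintro i hi ⟨t0, t1, t2, t3⟩
    exact c_ABBA (h.shift 4 i (by omega)) (by simpa using t0) (by simpa [add_comm] using t1)
      (by simpa [add_comm] using t2) (by simpa [add_comm] using t3)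

end

/-! ### The class of graphs -/

/-- Neither the graph nor its complement has an induced cycle of length at least `5` (the graph is
weakly chordal), and neither has an induced path with `8` vertices. -/
structure WeaklyChordal8 {V : Type} (G : SimpleGraph V) : Prop where
  hole : ∀ n : ℕ, 5 ≤ n → IsEmpty (SimpleGraph.cycleGraph n ↪g G)
  antihole : ∀ n : ℕ, 5 ≤ n → IsEmpty (SimpleGraph.cycleGraph n ↪g Gᶜ)
  path : IsEmpty (SimpleGraph.pathGraph 8 ↪g G)
  copath : IsEmpty (SimpleGraph.pathGraph 8 ↪g Gᶜ)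

section

open scoped Fin.NatCast Fin.CommRing

theorem natCast_ne {n a b : ℕ} [NeZero n] (hab : a < b) (hn : b < a + n) :
    ((a : ℕ) : Fin n) ≠ ((b : ℕ) : Fin n) := by
  intro h
  have h1 : a % n = b % n := by
    have := congrArg Fin.val h
    rwa [Fin.val_natCast, Fin.val_natCast] at this
  have h2 := (Nat.modEq_iff_dvd' hab.le).1 h1
  have h3 := Nat.le_of_dvd (by omega) h2
  omega

theorem win_of_cycle {V : Type} {H : SimpleGraph V} {n : ℕ} (hn : 5 ≤ n)
    (e : SimpleGraph.cycleGraph n ↪g H) : ∃ g : ℕ → V, Win H.Adj 8 g := by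
  obtain ⟨m, rfl⟩ : ∃ m, n = m + 5 := ⟨n - 5, by omega⟩
  have hadj : ∀ i j : ℕ, H.Adj (e (i : Fin (m + 5))) (e (j : Fin (m + 5))) ↔
      ((i : Fin (m + 5)) = ((j + 1 : ℕ) : Fin (m + 5)) ∨
        (j : Fin (m + 5)) = ((i + 1 : ℕ) : Fin (m + 5))) := by
    intro i j
    rw [e.map_adj_iff]
    have := SimpleGraph.cycleGraph_adj (n := m + 3) (u := (i : Fin (m + 5))) (v := (j : Fin (m + 5)))
    rw [this, sub_eq_iff_eq_add, sub_eq_iff_eq_add]
    push_cast
    rw [add_comm (1 : Fin (m + 5)) _, add_comm (1 : Fin (m + 5)) _]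
  refine ⟨fun i => e (i : Fin (m + 5)), ?_, ?_, ?_⟩
  · intro i _
    exact (hadj _ _).2 (Or.inr rfl)
  · intro i _
    refine ⟨fun h => natCast_ne (n := m + 5) (a := i) (b := i + 2) (by omega) (by omega)
      (e.injective h), fun h => ?_⟩
    rcases (hadj _ _).1 h with h1 | h1
    · exact natCast_ne (n := m + 5) (a := i) (b := i + 2 + 1) (by omega) (by omega) h1
    · exact natCast_ne (n := m + 5) (a := i + 1) (b := i + 2) (by omega) (by omega) h1.symm
  · intro i _
    refine ⟨fun h => natCast_ne (n := m + 5) (a := i) (b := i + 3) (by omega) (by omega)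
      (e.injective h), fun h => ?_⟩
    rcases (hadj _ _).1 h with h1 | h1
    · exact natCast_ne (n := m + 5) (a := i) (b := i + 3 + 1) (by omega) (by omega) h1
    · exact natCast_ne (n := m + 5) (a := i + 1) (b := i + 3) (by omega) (by omega) h1.symm

end

theorem win_of_path {V : Type} {H : SimpleGraph V} (e : SimpleGraph.pathGraph 8 ↪g H) :
    ∃ g : ℕ → V, Win H.Adj 8 g := by
  have hadj : ∀ (i j : ℕ) (hi : i < 8) (hj : j < 8), H.Adj (e ⟨i, hi⟩) (e ⟨j, hj⟩) ↔
      (i + 1 = j ∨ j + 1 = i) := by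
    intro i j hi hj
    rw [e.map_adj_iff, SimpleGraph.pathGraph_adj]
  let g : ℕ → V := fun i => if hi : i < 8 then e ⟨i, hi⟩ else e ⟨0, by omega⟩
  have hg : ∀ (i : ℕ) (hi : i < 8), g i = e ⟨i, hi⟩ := fun i hi => dif_pos hi
  refine ⟨g, ?_, ?_, ?_⟩
  · intro i hi
    rw [hg i (by omega), hg (i + 1) hi]
    exact (hadj _ _ _ _).2 (Or.inl rfl)
  · intro i hi
    rw [hg i (by omega), hg (i + 2) hi]
    refine ⟨fun h => ?_, fun h => ?_⟩
    · have := congrArg Fin.val (e.injective h)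
      simp only at this
      omega
    · have := (hadj _ _ _ _).1 h
      omega
  · intro i hi
    rw [hg i (by omega), hg (i + 3) hi]
    refine ⟨fun h => ?_, fun h => ?_⟩
    · have := congrArg Fin.val (e.injective h)
      simp only at this
      omega
    · have := (hadj _ _ _ _).1 h
      omega

/-- A graph without windows of length 8 in it and in its complement is in the class. -/
theorem WeaklyChordal8.of_win {V : Type} {G : SimpleGraph V}
    (h1 : ∀ g : ℕ → V, ¬ Win G.Adj 8 g) (h2 : ∀ g : ℕ → V, ¬ Win Gᶜ.Adj 8 g) :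
    WeaklyChordal8 G where
  hole n hn := ⟨fun e => by
    obtain ⟨g, hg⟩ := win_of_cycle hn e
    exact h1 g hg⟩
  antihole n hn := ⟨fun e => by
    obtain ⟨g, hg⟩ := win_of_cycle hn e
    exact h2 g hg⟩
  path := ⟨fun e => by
    obtain ⟨g, hg⟩ := win_of_path e
    exact h1 g hg⟩
  copath := ⟨fun e => by
    obtain ⟨g, hg⟩ := win_of_path e
    exact h2 g hg⟩

theorem Win.map {V W : Type} {r : V → V → Prop} {s : W → W → Prop} {f : V → W}
    (hf : ∀ x y, f x = f y → x = y) (hrs : ∀ x y, r x y ↔ s (f x) (f y)) {n : ℕ} {g : ℕ → V}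
    (h : Win r n g) : Win s n (fun i => f (g i)) where
  one i hi := (hrs _ _).1 (h.one i hi)
  two i hi := ⟨fun hh => (h.two i hi).1 (hf _ _ hh), fun hh => (h.two i hi).2 ((hrs _ _).2 hh)⟩
  three i hi := ⟨fun hh => (h.three i hi).1 (hf _ _ hh),
    fun hh => (h.three i hi).2 ((hrs _ _).2 hh)⟩

theorem eqRed_weaklyChordal (φ : List C3) : WeaklyChordal8 (matGraph (eqRed φ)) := by
  have e : matGraph (eqRed φ) ≃g labGraph (labE φ) (adjE (satL φ)) :=
    matIso (labE φ) (adjE (satL φ)) (labE_nodup φ)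
  refine WeaklyChordal8.of_win (fun g hg => ?_) (fun g hg => ?_)
  · refine no_win (L := satL φ) _ (hg.map (f := fun x => (e x).1) ?_ ?_)
    · intro x y h
      exact e.injective (Subtype.ext h)
    · intro x y
      rw [← adj_iff]
      exact (e.map_adj_iff).symm
  · refine no_cwin (L := satL φ) _ (hg.map (f := fun x => (e x).1) ?_ ?_)
    · intro x y h
      exact e.injective (Subtype.ext h)
    · intro x y
      have h1 : (matGraph (eqRed φ)).Adj x y ↔ AdjP (satL φ) (e x).1 (e y).1 := by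
        rw [← adj_iff]
        exact (e.map_adj_iff).symm
      rw [SimpleGraph.compl_adj]
      unfold CP
      rw [h1]
      refine and_congr ?_ Iff.rfl
      constructor
      · intro h h'
        exact h (e.injective (Subtype.ext h'))
      · intro h h'
        exact h (by rw [h'])

/-- The class is closed under induced subgraphs. -/
theorem WeaklyChordal8.of_embedding {V W : Type} {F : SimpleGraph W} {G : SimpleGraph V}
    (e : F ↪g G) (h : WeaklyChordal8 G) : WeaklyChordal8 F where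
  hole n hn := ⟨fun f => (h.hole n hn).false (e.comp f)⟩
  antihole n hn := ⟨fun f => (h.antihole n hn).false
    ((SimpleGraph.Embedding.complEquiv e).comp f)⟩
  path := ⟨fun f => h.path.false (e.comp f)⟩
  copath := ⟨fun f => h.copath.false ((SimpleGraph.Embedding.complEquiv e).comp f)⟩

/-- **Sandwich theorem on weakly chordal graphs.** -/
theorem sandwich_wc {k : ℕ} (hk : 2 ≤ k) {Q : List (List Bool) → Prop}
    (h1 : ∀ M, M ≠ [] → WeaklyChordal8 (matGraph M) → IsCIS (matGraph M) → Q M)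
    (h2 : ∀ M, M ≠ [] → WeaklyChordal8 (matGraph M) → Q M → CliqueCond k (matGraph M)) :
    CoNPHardP Q := by
  refine HardPr.toCoNPHardP (Pr := fun _ => True) ?_
  refine hardPr_SAT3b.trans (Pr' := fun _ => True) (kRed_poly k) (fun _ _ => trivial) ?_
  rintro φ ⟨h3, h4, h5⟩
  constructor
  · intro hs hQ
    exact kRed_sat hk h4 h5 hs (h2 _ (kRed_ne_nil k φ) (eqRed_weaklyChordal _) hQ)
  · intro hQ
    by_contra hs
    exact hQ (h1 _ (kRed_ne_nil k φ) (eqRed_weaklyChordal _) (kRed_unsat (by omega) h3 h4 h5 hs))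

end Pool.Agent.K7.H94.CIS
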